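import Mathlib

set_option autoImplicit false

open MeasureTheory Complex ComplexConjugate AddCircle

namespace Pool.Agent.Results.MP_3d2409_an.PlusZero

/-! ### the definitions used in the statement -/

/-- `L²` of the unit circle (parametrised by `ℝ/ℤ`) with normalised arc length measure -/
def L2 : Type := Lp ℂ 2 (haarAddCircle : Measure (AddCircle (1 : ℝ)))

noncomputable instance : NormedAddCommGroup L2 :=
  inferInstanceAs (NormedAddCommGroup (Lp ℂ 2 (haarAddCircle : Measure (AddCircle (1 : ℝ)))))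

noncomputable instance : InnerProductSpace ℂ L2 :=
  inferInstanceAs (InnerProductSpace ℂ (Lp ℂ 2 (haarAddCircle : Measure (AddCircle (1 : ℝ)))))

/-- the underlying function of an element of `L²` -/
noncomputable def fn (f : L2) : AddCircle (1 : ℝ) → ℂ :=
  AEEqFun.cast (Subtype.val f)

/-- `z ^ n` as an element of `L²` -/
noncomputable def zpow (n : ℤ) : L2 := fourierLp (T := 1) 2 n

/-- the Hardy space `H²`: the elements of `L²` orthogonal to all `z ^ n`, `n < 0`, that is,
with vanishing negative Fourier coefficients -/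
noncomputable def H2 : Submodule ℂ L2 :=
  (Submodule.span ℂ {g : L2 | ∃ n : ℤ, n < 0 ∧ g = zpow n})ᗮ

/-- `g = Θ h` almost everywhere -/
def IsProd (Θ h g : L2) : Prop := fn g =ᵐ[haarAddCircle] fun t => fn Θ t * fn h t

/-- `Θ H²` (for inner `Θ` the set of products `Θ h`, `h ∈ H²`, is already a subspace) -/
noncomputable def mulH2 (Θ : L2) : Submodule ℂ L2 :=
  Submodule.span ℂ {g : L2 | ∃ h ∈ H2, IsProd Θ h g}

/-- the model space `K_Θ = H² ⊖ Θ H²` -/
noncomputable def modelSpace (Θ : L2) : Submodule ℂ L2 := H2 ⊓ (mulH2 Θ)ᗮ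

/-- nonconstant inner functions -/
structure IsInner (Θ : L2) : Prop where
  hardy : Θ ∈ H2
  unimodular : ∀ᵐ t ∂haarAddCircle, ‖fn Θ t‖ = 1
  nonconstant : ∀ c : ℂ, Θ ≠ c • zpow 0

/-- bounded almost everywhere -/
def IsBdd (f : L2) : Prop := ∃ C : ℝ, ∀ᵐ t ∂haarAddCircle, ‖fn f t‖ ≤ C

/-- `p` is the orthogonal projection of `w` on `K` -/
def IsProj (K : Submodule ℂ L2) (w p : L2) : Prop := p ∈ K ∧ ∀ g ∈ K, inner ℂ g (w - p) = 0

/-- `T` is unitarily equivalent to a (bounded) truncated Toeplitz operator: there are a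
nonconstant inner function `Θ`, a symbol `φ ∈ L²` and an isometry `U` of `H` onto `K_Θ` such that
`A = U T U⁻¹` satisfies `A f = P_Θ (φ f)` for every bounded `f = U x ∈ K_Θ`. -/
def UETTO {H : Type} [NormedAddCommGroup H] [InnerProductSpace ℂ H] (T : H →L[ℂ] H) : Prop :=
  ∃ Θ φ : L2, IsInner Θ ∧ ∃ U : H →ₗᵢ[ℂ] L2, (∀ f : L2, f ∈ modelSpace Θ ↔ ∃ x, U x = f) ∧
    ∀ (x : H) (w : L2), IsBdd (U x) → IsProd φ (U x) w → IsProj (modelSpace Θ) w (U (T x))

/-- `T ⊕ 0` on `H ⊕ ℂ` -/
noncomputable def plusZero {H : Type} [NormedAddCommGroup H] [InnerProductSpace ℂ H]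
    (T : H →L[ℂ] H) : WithLp 2 (H × ℂ) →L[ℂ] WithLp 2 (H × ℂ) :=
  (WithLp.prodContinuousLinearEquiv 2 ℂ H ℂ).symm.toContinuousLinearMap ∘L
    (T.prodMap (0 : ℂ →L[ℂ] ℂ)) ∘L (WithLp.prodContinuousLinearEquiv 2 ℂ H ℂ).toContinuousLinearMap

/-- the `3 × 3` nilpotent Jordan block, `(x₀, x₁, x₂) ↦ (0, x₀, x₁)` -/
noncomputable def J : EuclideanSpace ℂ (Fin 3) →L[ℂ] EuclideanSpace ℂ (Fin 3) :=
  LinearMap.toContinuousLinearMap
    { toFun := fun x => WithLp.toLp 2 ![0, x 0, x 1]
      map_add' := by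
        intro x y; ext i; fin_cases i <;> simp
      map_smul' := by
        intro c x; ext i; fin_cases i <;> simp }

namespace Dev

/-- `L²` of the unit circle (parametrised by `ℝ/ℤ`) with normalised arc length measure -/
noncomputable abbrev L2 := Lp ℂ 2 (haarAddCircle : Measure (AddCircle (1 : ℝ)))

/-- the Hardy space `H²`: the functions in `L²` orthogonal to all `z ^ n`, `n < 0`, that is,
with vanishing negative Fourier coefficients -/
noncomputable def H2 : Submodule ℂ L2 :=
  (Submodule.span ℂ {g : L2 | ∃ n : ℤ, n < 0 ∧ g = fourierLp 2 n})ᗮ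

/-- `Θ H²` (for inner `Θ` the set of products `Θ h`, `h ∈ H²`, is already a subspace) -/
noncomputable def mulH2 (Θ : L2) : Submodule ℂ L2 :=
  Submodule.span ℂ {g : L2 | ∃ h ∈ H2, g =ᵐ[haarAddCircle] fun t => Θ t * h t}

/-- the model space `K_Θ = H² ⊖ Θ H²` -/
noncomputable def modelSpace (Θ : L2) : Submodule ℂ L2 := H2 ⊓ (mulH2 Θ)ᗮ

/-- nonconstant inner functions -/
structure IsInner (Θ : L2) : Prop where
  hardy : Θ ∈ H2
  unimodular : ∀ᵐ t ∂haarAddCircle, ‖Θ t‖ = 1
  nonconstant : ¬ ∃ c : ℂ, ∀ᵐ t ∂haarAddCircle, Θ t = c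

/-- `A` is the bounded truncated Toeplitz operator on `K_Θ` with symbol `φ ∈ L²`: for every
bounded `f ∈ K_Θ`, `A f` is the orthogonal projection of `w = φ f ∈ L²` on `K_Θ`. -/
def IsTTO (Θ : L2) (A : modelSpace Θ →L[ℂ] modelSpace Θ) : Prop :=
  ∃ φ : L2, ∀ f : modelSpace Θ, (∃ C : ℝ, ∀ᵐ t ∂haarAddCircle, ‖(f : L2) t‖ ≤ C) →
    ∀ w : L2, (w =ᵐ[haarAddCircle] fun t => φ t * (f : L2) t) →
      ∀ g : modelSpace Θ, inner ℂ (g : L2) (A f : L2) = inner ℂ (g : L2) w

/-- unitarily equivalent to a truncated Toeplitz operator -/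
def UETTO {H : Type} [NormedAddCommGroup H] [InnerProductSpace ℂ H] (T : H →L[ℂ] H) : Prop :=
  ∃ Θ : L2, IsInner Θ ∧ ∃ A : modelSpace Θ →L[ℂ] modelSpace Θ, IsTTO Θ A ∧
    ∃ U : H ≃ₗᵢ[ℂ] modelSpace Θ, ∀ x, U (T x) = A (U x)

/-! ### basic calculus in `L²` -/

/-- normalised arc length measure -/
noncomputable abbrev μ : Measure (AddCircle (1 : ℝ)) := haarAddCircle

theorem inner_eq (f g : L2) : inner ℂ f g = ∫ t, conj (f t) * g t ∂μ := by
  rw [L2.inner_def]
  apply integral_congr_ae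
  filter_upwards with t
  rw [RCLike.inner_apply]
  ring

theorem inner_eq' {f g : L2} {f' g' : AddCircle (1 : ℝ) → ℂ} (hf : f =ᵐ[μ] f') (hg : g =ᵐ[μ] g') :
    inner ℂ f g = ∫ t, conj (f' t) * g' t ∂μ := by
  rw [inner_eq]
  apply integral_congr_ae
  filter_upwards [hf, hg] with t h1 h2
  rw [h1, h2]

theorem memLp_mul {u : AddCircle (1 : ℝ) → ℂ} (hu : AEStronglyMeasurable u μ) {C : ℝ}
    (hb : ∀ᵐ t ∂μ, ‖u t‖ ≤ C) (f : L2) : MemLp (fun t => u t * f t) 2 μ := by
  apply MemLp.of_le_mul (c := C) (Lp.memLp f) (hu.mul (Lp.memLp f).1)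
  filter_upwards [hb] with t ht
  change ‖u t * f t‖ ≤ C * ‖f t‖
  rw [norm_mul]
  gcongr

theorem fourier_norm' (k : ℤ) (t : AddCircle (1 : ℝ)) : ‖fourier k t‖ = 1 := by
  rw [fourier_apply]; exact Circle.norm_coe _

/-- multiplication by `z ^ k` -/
noncomputable def sh (k : ℤ) (f : L2) : L2 :=
  (memLp_mul (u := fun t => fourier k t) (fourier k).continuous.aestronglyMeasurable
    (C := 1) (by filter_upwards with t; rw [fourier_norm']) f).toLp (fun t => fourier k t * f t)

theorem sh_ae (k : ℤ) (f : L2) : sh k f =ᵐ[μ] fun t => fourier k t * f t :=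
  MemLp.coeFn_toLp _

theorem conj_fourier_mul (k : ℤ) (t : AddCircle (1 : ℝ)) :
    conj (fourier k t : ℂ) * fourier k t = 1 := by
  rw [← fourier_neg, ← fourier_add]; simp

theorem sh_inner (k : ℤ) (f g : L2) : inner ℂ (sh k f) (sh k g) = inner ℂ f g := by
  rw [inner_eq' (sh_ae k f) (sh_ae k g), inner_eq]
  apply integral_congr_ae
  filter_upwards with t
  rw [map_mul]
  linear_combination (conj (f t) * g t) * conj_fourier_mul k t

theorem sh_zero (f : L2) : sh 0 f = f := by
  apply Lp.ext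
  filter_upwards [sh_ae 0 f] with t ht
  rw [ht]; simp

theorem sh_sh (k l : ℤ) (f : L2) : sh k (sh l f) = sh (k + l) f := by
  apply Lp.ext
  filter_upwards [sh_ae k (sh l f), sh_ae l f, sh_ae (k + l) f] with t h1 h2 h3
  rw [h1, h2, h3, fourier_add]; ring

theorem sh_adj (k : ℤ) (f g : L2) : inner ℂ f (sh k g) = inner ℂ (sh (-k) f) g := by
  have : f = sh k (sh (-k) f) := by rw [sh_sh]; simp [sh_zero]
  conv_lhs => rw [this]
  rw [sh_inner]

/-- `z ^ n` -/
noncomputable def e (n : ℤ) : L2 := fourierLp 2 n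

theorem e_ae (n : ℤ) : e n =ᵐ[μ] fourier n := coeFn_fourierLp 2 n

theorem sh_e (k n : ℤ) : sh k (e n) = e (n + k) := by
  apply Lp.ext
  filter_upwards [sh_ae k (e n), e_ae n, e_ae (n + k)] with t h1 h2 h3
  rw [h1, h2, h3, fourier_add]; ring

theorem repr_eq (f : L2) (n : ℤ) : fourierBasis.repr f n = inner ℂ (e n) f := by
  rw [HilbertBasis.repr_apply_apply, coe_fourierBasis]; rfl

theorem e_inner (m n : ℤ) : inner ℂ (e m) (e n) = if m = n then (1 : ℂ) else 0 := by
  have := orthonormal_iff_ite.mp (@orthonormal_fourier 1 _) m n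
  exact this

theorem ext_e (f : L2) (h : ∀ n, inner ℂ (e n) f = 0) : f = 0 := by
  apply (@fourierBasis 1 _).repr.injective
  ext n
  rw [repr_eq, h n]; simp

theorem mem_orth_span {S : Set L2} (f : L2) :
    f ∈ (Submodule.span ℂ S)ᗮ ↔ ∀ g ∈ S, inner ℂ g f = 0 := by
  rw [Submodule.mem_orthogonal]
  refine ⟨fun h g hg => h g (Submodule.subset_span hg), fun h g hg => ?_⟩
  induction hg using Submodule.span_induction with
  | mem z hz => exact h z hz
  | zero => simp
  | add a b _ _ ha hb => rw [inner_add_left, ha, hb, add_zero]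
  | smul c a _ ha => rw [inner_smul_left, ha, mul_zero]

theorem mem_H2' (f : L2) : f ∈ H2 ↔ ∀ n : ℤ, n < 0 → inner ℂ (e n) f = 0 := by
  rw [H2, mem_orth_span]
  constructor
  · intro h n hn
    exact h _ ⟨n, hn, rfl⟩
  · rintro h g ⟨n, hn, rfl⟩
    exact h n hn

theorem e_mem (n : ℤ) (hn : 0 ≤ n) : e n ∈ H2 := by
  rw [mem_H2']
  intro m hm
  rw [e_inner, if_neg (by omega)]

/-- Fourier description of the model space -/
theorem mem_model {Θ : L2} (hΘ : IsInner Θ) (f : L2) : f ∈ modelSpace Θ ↔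
    (∀ n : ℤ, n < 0 → inner ℂ (e n) f = 0) ∧ (∀ n : ℤ, 0 ≤ n → inner ℂ (sh n Θ) f = 0) := by
  rw [modelSpace, Submodule.mem_inf, mem_H2', mulH2, mem_orth_span]
  refine and_congr_right (fun _ => ⟨fun h n hn => ?_, fun h g hg => ?_⟩)
  · apply h
    refine ⟨e n, e_mem n hn, ?_⟩
    filter_upwards [sh_ae n Θ, e_ae n] with t h1 h2
    rw [h1, h2]; ring
  · obtain ⟨u, hu, hgu⟩ := hg
    -- w = conj Θ * f
    have hm : MemLp (fun t => conj (Θ t) * f t) 2 μ :=
      memLp_mul (u := fun t => conj (Θ t))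
        (Complex.continuous_conj.comp_aestronglyMeasurable (Lp.memLp Θ).1) (C := 1)
        (by filter_upwards [hΘ.unimodular] with t ht; rw [RCLike.norm_conj, ht]) f
    have hw := hm.coeFn_toLp
    set w : L2 := hm.toLp _ with hwdef
    have h1 : inner ℂ g f = inner ℂ u w := by
      rw [inner_eq' hgu (Filter.EventuallyEq.refl _ _), inner_eq' (Filter.EventuallyEq.refl _ _) hw]
      apply integral_congr_ae
      filter_upwards with t
      rw [map_mul]; ring
    rw [h1, ← fourierBasis.tsum_inner_mul_inner u w]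
    have h2 : ∀ n : ℤ, inner ℂ u (fourierBasis n) * inner ℂ (fourierBasis n) w = 0 := by
      intro n
      rw [coe_fourierBasis]
      by_cases hn : n < 0
      · have h3 := (mem_H2' u).mp hu n hn
        have h4 : inner ℂ u (e n) = 0 := by
          rw [← inner_conj_symm, h3, map_zero]
        change inner ℂ u (e n) * _ = 0
        rw [h4, zero_mul]
      · have h3 := h n (by omega)
        have h4 : inner ℂ (e n) w = inner ℂ (sh n Θ) f := by
          rw [inner_eq' (e_ae n) hw, inner_eq' (sh_ae n Θ) (Filter.EventuallyEq.refl _ _)]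
          apply integral_congr_ae
          filter_upwards with t
          rw [map_mul]; ring
        change _ * inner ℂ (e n) w = 0
        rw [h4, h3, mul_zero]
    simp only [h2, tsum_zero]

/-- bounded functions -/
noncomputable def bddSub : Submodule ℂ L2 where
  carrier := {f | ∃ C : ℝ, ∀ᵐ t ∂haarAddCircle, ‖f t‖ ≤ C}
  zero_mem' := ⟨0, by
    filter_upwards [Lp.coeFn_zero ℂ 2 (haarAddCircle : Measure (AddCircle (1 : ℝ)))] with t ht
    simp⟩
  add_mem' := by
    rintro a b ⟨C, ha⟩ ⟨D, hb⟩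
    refine ⟨C + D, ?_⟩
    filter_upwards [ha, hb, Lp.coeFn_add a b] with t h1 h2 h3
    rw [h3]
    exact (norm_add_le _ _).trans (add_le_add h1 h2)
  smul_mem' := by
    rintro c a ⟨C, ha⟩
    refine ⟨‖c‖ * C, ?_⟩
    filter_upwards [ha, Lp.coeFn_smul c a] with t h1 h2
    rw [h2]
    simp only [Pi.smul_apply, norm_smul]
    gcongr

theorem e_bdd (n : ℤ) : e n ∈ bddSub := by
  refine ⟨1, ?_⟩
  filter_upwards [e_ae n] with t ht
  rw [ht, fourier_norm']

theorem shΘ_bdd {Θ : L2} (hΘ : IsInner Θ) (k : ℤ) : sh k Θ ∈ bddSub := by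
  refine ⟨1, ?_⟩
  filter_upwards [sh_ae k Θ, hΘ.unimodular] with t ht h1
  rw [ht, norm_mul, fourier_norm', h1]; norm_num

theorem sh_bdd {f : L2} (hf : f ∈ bddSub) (k : ℤ) : sh k f ∈ bddSub := by
  obtain ⟨C, hC⟩ := hf
  refine ⟨C, ?_⟩
  filter_upwards [sh_ae k f, hC] with t ht h1
  rw [ht, norm_mul, fourier_norm', one_mul]; exact h1

theorem shΘ_inner {Θ : L2} (hΘ : IsInner Θ) (k l : ℤ) :
    inner ℂ (sh k Θ) (sh l Θ) = if k = l then (1 : ℂ) else 0 := by
  rw [← e_inner, inner_eq' (sh_ae k Θ) (sh_ae l Θ), inner_eq' (e_ae k) (e_ae l)]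
  apply integral_congr_ae
  filter_upwards [hΘ.unimodular] with t ht
  have h1 : conj (Θ t) * Θ t = 1 := by
    rw [mul_comm, Complex.mul_conj, Complex.normSq_eq_norm_sq, ht]; simp
  rw [map_mul]
  linear_combination (conj (fourier k t : ℂ) * fourier l t) * h1

/-- the projection of `z ^ n` on the model space -/
noncomputable def un (Θ : L2) (n : ℕ) : L2 :=
  e n - ∑ k ∈ Finset.range (n + 1), (inner ℂ (sh k Θ) (e n) : ℂ) • sh k Θ

theorem un_bdd {Θ : L2} (hΘ : IsInner Θ) (n : ℕ) : un Θ n ∈ bddSub := by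
  apply bddSub.sub_mem (e_bdd _)
  apply bddSub.sum_mem
  intro k _
  exact bddSub.smul_mem _ (shΘ_bdd hΘ _)

theorem un_mem {Θ : L2} (hΘ : IsInner Θ) (n : ℕ) : un Θ n ∈ modelSpace Θ := by
  rw [mem_model hΘ]
  have hneg : ∀ m : ℤ, m < 0 → inner ℂ (e m) Θ = 0 := (mem_H2' Θ).mp hΘ.hardy
  constructor
  · intro m hm
    rw [un, inner_sub_right, inner_sum, e_inner, if_neg (by omega)]
    rw [Finset.sum_eq_zero, sub_zero]
    intro k _
    rw [inner_smul_right, sh_adj, sh_e, hneg _ (by omega), mul_zero]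
  · intro m hm
    rw [un, inner_sub_right, inner_sum]
    simp only [inner_smul_right, shΘ_inner hΘ]
    obtain ⟨m, rfl⟩ := Int.eq_ofNat_of_zero_le hm
    simp only [Nat.cast_inj, mul_ite, mul_one, mul_zero]
    rw [Finset.sum_ite_eq]
    split_ifs with h
    · simp
    · rw [Finset.mem_range] at h
      have : inner ℂ (sh m Θ) (e n) = 0 := by
        rw [← inner_conj_symm, sh_adj, sh_e, hneg _ (by omega), map_zero]
      rw [this]; simp

/-- in a finite-dimensional model space every function is bounded -/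
theorem model_bdd {Θ : L2} (hΘ : IsInner Θ) [FiniteDimensional ℂ (modelSpace Θ)] (f : L2)
    (hf : f ∈ modelSpace Θ) : f ∈ bddSub := by
  let Kb : Submodule ℂ L2 := modelSpace Θ ⊓ bddSub
  have : FiniteDimensional ℂ Kb := Submodule.finiteDimensional_of_le inf_le_left
  obtain ⟨g, hg, r, hr, hfg⟩ := Kb.exists_add_mem_mem_orthogonal f
  have hrK : r ∈ modelSpace Θ := by
    have : r = f - g := by rw [hfg]; abel
    rw [this]
    exact (modelSpace Θ).sub_mem hf hg.1
  have hr0 : r = 0 := by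
    apply ext_e
    intro n
    by_cases hn : n < 0
    · exact ((mem_model hΘ r).mp hrK).1 n hn
    · obtain ⟨n, rfl⟩ := Int.eq_ofNat_of_zero_le (not_lt.mp hn)
      have h1 : inner ℂ (un Θ n) r = 0 :=
        (Submodule.mem_orthogonal _ _).mp hr _ ⟨un_mem hΘ n, un_bdd hΘ n⟩
      rw [un, inner_sub_left, sum_inner] at h1
      rw [Finset.sum_eq_zero, sub_zero] at h1
      · exact h1
      · intro k _
        rw [inner_smul_left, ((mem_model hΘ r).mp hrK).2 k (by omega), mul_zero]
  rw [hfg, hr0, add_zero]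
  exact hg.2

/-! ### linear algebra -/

/-- the sesquilinear form `x ↦ ⟨T x, y⟩` of the `3 × 3` shift -/
noncomputable def B : (Fin 3 → ℂ) →ₗ[ℂ] (Fin 3 → ℂ) →ₗ⋆[ℂ] ℂ :=
  LinearMap.mk₂'ₛₗ (RingHom.id ℂ) (starRingEnd ℂ)
    (fun x y => x 0 * conj (y 1) + x 1 * conj (y 2))
    (by intro a b c; simp; ring) (by intro c a b; simp; ring)
    (by intro a b c; simp; ring) (by intro c a b; simp; ring)

theorem B_apply (x y : Fin 3 → ℂ) : B x y = x 0 * conj (y 1) + x 1 * conj (y 2) := rfl

theorem right_ker (x : Fin 3 → ℂ) (h : ∀ y, B x y = 0) : x 0 = 0 ∧ x 1 = 0 := by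
  constructor
  · have := h ![0, 1, 0]
    simpa [B_apply] using this
  · have := h ![0, 0, 1]
    simpa [B_apply] using this

theorem left_ker (y : Fin 3 → ℂ) (h : ∀ x, B x y = 0) : y 1 = 0 ∧ y 2 = 0 := by
  constructor
  · have := h ![1, 0, 0]
    simpa [B_apply] using this
  · have := h ![0, 1, 0]
    simpa [B_apply] using this

theorem two_span (u w : Fin 3 → ℂ) (h : ∀ v : Fin 3 → ℂ, v ∈ Submodule.span ℂ {u, w}) :
    False := by
  have h1 : (⊤ : Submodule ℂ (Fin 3 → ℂ)) ≤ Submodule.span ℂ {u, w} := fun v _ => h v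
  have h2 : Module.finrank ℂ (Submodule.span ℂ ({u, w} : Set (Fin 3 → ℂ))) = 3 := by
    rw [top_le_iff.mp h1]; simp
  have h3 : Module.finrank ℂ (Submodule.span ℂ (Set.range ![u, w])) ≤ 2 := by
    have := finrank_range_le_card (R := ℂ) ![u, w]
    simpa [Set.finrank] using this
  have h4 : Set.range ![u, w] = {u, w} := by
    ext v; simp [eq_comm]; tauto
  rw [h4] at h3
  omega

/-- if all `x i` lie in the span of two vectors, they cannot span -/
theorem two_span' (x : Fin 4 → Fin 3 → ℂ)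
    (hs : ∀ y : Fin 3 → ℂ, y ∈ Submodule.span ℂ (Set.range x)) (u w : Fin 3 → ℂ)
    (h : ∀ i, x i ∈ Submodule.span ℂ {u, w}) : False := by
  apply two_span u w
  intro v
  have := hs v
  have h2 : Submodule.span ℂ (Set.range x) ≤ Submodule.span ℂ {u, w} := by
    rw [Submodule.span_le]
    rintro _ ⟨i, rfl⟩
    exact h i
  exact h2 this

theorem case_indep (x : Fin 4 → Fin 3 → ℂ) (t : ℤ → ℂ)
    (hx : ∀ i j : Fin 4, B (x i) (x j) = t ((i : ℤ) - (j : ℤ)))
    (hli : LinearIndependent ℂ (fun i : Fin 3 => x i.castSucc)) : False := by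
  classical
  let b : Module.Basis (Fin 3) ℂ (Fin 3 → ℂ) :=
    basisOfLinearIndependentOfCardEqFinrank hli (by simp)
  have hb : ∀ i, b i = x i.castSucc := by
    intro i; simp [b]
  let Z : (Fin 3 → ℂ) →ₗ[ℂ] (Fin 3 → ℂ) := b.constr ℂ (fun i => x i.succ)
  have hZ : ∀ i : Fin 3, Z (x i.castSucc) = x i.succ := by
    intro i
    rw [← hb]
    exact b.constr_basis ℂ _ i
  have hB1 : ∀ i j : Fin 3, B (Z (b i)) (Z (b j)) = B (b i) (b j) := by
    intro i j
    rw [hb, hb, hZ, hZ, hx, hx]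
    congr 1
    simp
  have hB2 : ∀ (j : Fin 3) (u : Fin 3 → ℂ), B (Z u) (Z (b j)) = B u (b j) := by
    intro j u
    have : (B.flip (Z (b j))).comp Z = B.flip (b j) := by
      apply b.ext
      intro i
      simpa using hB1 i j
    have h := congrArg (fun f => f u) this
    simpa using h
  have hB : ∀ u v : Fin 3 → ℂ, B (Z u) (Z v) = B u v := by
    intro u v
    have : (B (Z u)).comp Z = B u := by
      apply b.ext
      intro i
      simpa using hB2 i u
    have h := congrArg (fun f => f v) this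
    simpa using h
  have hinj : Function.Injective Z := by
    rw [injective_iff_map_eq_zero]
    intro u hu
    have h1 : ∀ y, B u y = 0 := by
      intro y; rw [← hB, hu]; simp
    have h2 : ∀ y, B y u = 0 := by
      intro y; rw [← hB, hu]; simp
    obtain ⟨a0, a1⟩ := right_ker u h1
    obtain ⟨_, a2⟩ := left_ker u h2
    funext i
    fin_cases i
    · simpa using a0
    · simpa using a1
    · simpa using a2
  have hsurj : Function.Surjective Z := LinearMap.injective_iff_surjective.mp hinj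
  -- right kernel e2, left kernel e0
  have hr : ∀ y, B (Z ![0, 0, 1]) y = 0 := by
    intro y
    obtain ⟨w, rfl⟩ := hsurj y
    rw [hB]; simp [B_apply]
  have hl : ∀ y, B y (Z ![1, 0, 0]) = 0 := by
    intro y
    obtain ⟨w, rfl⟩ := hsurj y
    rw [hB]; simp [B_apply]
  obtain ⟨r0, r1⟩ := right_ker _ hr
  obtain ⟨l1, l2⟩ := left_ker _ hl
  set α := Z ![0, 0, 1] 2 with hα
  set β := Z ![1, 0, 0] 0 with hβ
  have e1 : ∀ u, Z u 1 * conj α = u 1 := by
    intro u
    have := hB u ![0, 0, 1]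
    rw [B_apply, B_apply, r1] at this
    simpa using this
  have e2 : ∀ u, β * conj (Z u 1) = conj (u 1) := by
    intro u
    have := hB ![1, 0, 0] u
    rw [B_apply, B_apply, l1] at this
    simpa using this
  have hα0 : α ≠ 0 := by
    intro h0
    have := e1 ![0, 1, 0]
    rw [h0] at this
    simp at this
  have hαβ : β = α := by
    have h1 := e1 ![0, 1, 0]
    have h2 := e2 ![0, 1, 0]
    simp at h1 h2
    have h3 := congrArg conj h1
    simp at h3
    have h4 : conj (Z ![0, 1, 0] 1) ≠ 0 := by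
      intro h; rw [h] at h3; simp at h3
    apply mul_right_cancel₀ h4
    rw [h2, mul_comm, h3]
  -- (Z - α)(Z - γ) = 0 with γ = 1 / conj α
  have hZe : ∀ u : Fin 3 → ℂ, u 1 = 0 → Z u = α • u := by
    intro u hu
    have h1 : u = u 0 • ![1, 0, 0] + u 2 • ![0, 0, 1] := by
      funext i; fin_cases i <;> simp [hu]
    have h2 : Z ![1, 0, 0] = ![β, 0, 0] := by
      funext i; fin_cases i
      · simp [hβ]
      · simpa using l1
      · simpa using l2
    have h3 : Z ![0, 0, 1] = ![0, 0, α] := by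
      funext i; fin_cases i
      · simpa using r0
      · simpa using r1
      · simp [hα]
    rw [h1, map_add, map_smul, map_smul, h2, h3, hαβ]
    funext i
    fin_cases i <;> simp [mul_comm]
  have hc : conj α ≠ 0 := by simpa using hα0
  have hfin : ∀ u : Fin 3 → ℂ, Z (Z u) = (α + (conj α)⁻¹) • Z u - (α * (conj α)⁻¹) • u := by
    intro u
    have h1 : (Z u - (conj α)⁻¹ • u) 1 = 0 := by
      simp only [Pi.sub_apply, Pi.smul_apply, smul_eq_mul]
      rw [← e1 u]
      field_simp
      ring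
    have h2 := hZe _ h1
    rw [map_sub, map_smul] at h2
    have h3 : Z (Z u) = α • (Z u - (conj α)⁻¹ • u) + (conj α)⁻¹ • Z u := by
      rw [← h2]; abel
    rw [h3]
    funext i
    simp
    ring
  have h4 := hfin (x 0)
  have z0 : Z (x 0) = x 1 := hZ 0
  have z1 : Z (x 1) = x 2 := hZ 1
  rw [z0, z1] at h4
  rw [Fintype.linearIndependent_iff] at hli
  have h5 := hli ![α * (conj α)⁻¹, -(α + (conj α)⁻¹), 1] (by
    rw [Fin.sum_univ_three]
    have a0 : ((0 : Fin 3).castSucc) = (0 : Fin 4) := rfl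
    have a1 : ((1 : Fin 3).castSucc) = (1 : Fin 4) := rfl
    have a2 : ((2 : Fin 3).castSucc) = (2 : Fin 4) := rfl
    simp only [a0, a1, a2]
    rw [h4]
    funext i
    simp
    ring) 2
  simp at h5

theorem no_toeplitz (x : Fin 4 → Fin 3 → ℂ) (t : ℤ → ℂ)
    (hx : ∀ i j : Fin 4, B (x i) (x j) = t ((i : ℤ) - (j : ℤ)))
    (hs : ∀ y : Fin 3 → ℂ, y ∈ Submodule.span ℂ (Set.range x)) : False := by
  classical
  by_cases hli : LinearIndependent ℂ (fun i : Fin 3 => x i.castSucc)
  · exact case_indep x t hx hli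
  rw [Fintype.not_linearIndependent_iff] at hli
  obtain ⟨r, hr, i0, hi0⟩ := hli
  rw [Fin.sum_univ_three] at hr
  have a0 : ((0 : Fin 3).castSucc) = (0 : Fin 4) := rfl
  have a1 : ((1 : Fin 3).castSucc) = (1 : Fin 4) := rfl
  have a2 : ((2 : Fin 3).castSucc) = (2 : Fin 4) := rfl
  simp only [a0, a1, a2] at hr
  -- entries
  have T : ∀ i j : Fin 4, ∀ k : ℤ, ((i : ℤ) - (j : ℤ)) = k → B (x i) (x j) = t k := by
    intro i j k hk; rw [hx, hk]
  -- a vector killed by `B` on both sides against all `x i` vanishes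
  have hkr : ∀ u : Fin 3 → ℂ, (∀ j, B u (x j) = 0) → ∀ y, B u y = 0 := by
    intro u hu y
    have := hs y
    induction this using Submodule.span_induction with
    | mem z hz => obtain ⟨j, rfl⟩ := hz; exact hu j
    | zero => simp
    | add a b _ _ ha hb => rw [map_add, ha, hb, add_zero]
    | smul c a _ ha => rw [LinearMap.map_smulₛₗ, ha, smul_zero]
  have hkl : ∀ u : Fin 3 → ℂ, (∀ j, B (x j) u = 0) → ∀ y, B y u = 0 := by
    intro u hu y
    have := hs y
    induction this using Submodule.span_induction with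
    | mem z hz => obtain ⟨j, rfl⟩ := hz; exact hu j
    | zero => simp
    | add a b _ _ ha hb => rw [map_add, LinearMap.add_apply, ha, hb, add_zero]
    | smul c a _ ha => rw [map_smul, LinearMap.smul_apply, ha, smul_zero]
  have hzero : ∀ u : Fin 3 → ℂ, (∀ j, B u (x j) = 0) → (∀ j, B (x j) u = 0) → u = 0 := by
    intro u h1 h2
    obtain ⟨b0, b1⟩ := right_ker u (hkr u h1)
    obtain ⟨_, b2⟩ := left_ker u (hkl u h2)
    funext i
    fin_cases i
    · simpa using b0
    · simpa using b1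
    · simpa using b2
  -- the relation gives linear relations between the `t`
  have R1 : ∀ j : Fin 4, r 0 * B (x 0) (x j) + r 1 * B (x 1) (x j) + r 2 * B (x 2) (x j) = 0 := by
    intro j
    have := congrArg (fun u => B u (x j)) hr
    simpa using this
  have L1 : ∀ j : Fin 4, conj (r 0) * B (x j) (x 0) + conj (r 1) * B (x j) (x 1)
      + conj (r 2) * B (x j) (x 2) = 0 := by
    intro j
    have := congrArg (fun u => B (x j) u) hr
    simpa using this
  -- reversed relation
  have hrev : conj (r 2) • x 1 + conj (r 1) • x 2 + conj (r 0) • x 3 = 0 := by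
    apply hzero
    · intro j
      have hj := L1 (3 - j)
      simp only [map_add, LinearMap.add_apply, map_smul, LinearMap.smul_apply, smul_eq_mul]
      have e0 : B (x 3) (x j) = B (x (3 - j)) (x 0) := by
        rw [hx, hx]; congr 1; fin_cases j <;> rfl
      have e1 : B (x 2) (x j) = B (x (3 - j)) (x 1) := by
        rw [hx, hx]; congr 1; fin_cases j <;> rfl
      have e2 : B (x 1) (x j) = B (x (3 - j)) (x 2) := by
        rw [hx, hx]; congr 1; fin_cases j <;> rfl
      rw [e0, e1, e2]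
      linear_combination hj
    · intro j
      have hj := R1 (3 - j)
      simp only [map_add, LinearMap.map_smulₛₗ, smul_eq_mul, Complex.conj_conj]
      have e0 : B (x j) (x 3) = B (x 0) (x (3 - j)) := by
        rw [hx, hx]; congr 1; fin_cases j <;> rfl
      have e1 : B (x j) (x 2) = B (x 1) (x (3 - j)) := by
        rw [hx, hx]; congr 1; fin_cases j <;> rfl
      have e2 : B (x j) (x 1) = B (x 2) (x (3 - j)) := by
        rw [hx, hx]; congr 1; fin_cases j <;> rfl
      rw [e0, e1, e2]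
      linear_combination hj
  -- r 0 = 0
  have hr0 : r 0 = 0 := by
    by_contra h0
    have c0 : conj (r 0) ≠ 0 := by simpa using h0
    apply two_span' x hs (x 1) (x 2)
    intro i
    rw [Submodule.mem_span_pair]
    fin_cases i
    · refine ⟨-(r 1 / r 0), -(r 2 / r 0), ?_⟩
      have : x 0 = (-(r 1 / r 0)) • x 1 + (-(r 2 / r 0)) • x 2 := by
        funext k
        have := congrFun hr k
        simp at this ⊢
        field_simp
        linear_combination this
      exact this.symm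
    · exact ⟨1, 0, by simp⟩
    · exact ⟨0, 1, by simp⟩
    · refine ⟨-(conj (r 2) / conj (r 0)), -(conj (r 1) / conj (r 0)), ?_⟩
      have : x 3 = (-(conj (r 2) / conj (r 0))) • x 1 + (-(conj (r 1) / conj (r 0))) • x 2 := by
        funext k
        have := congrFun hrev k
        simp at this ⊢
        field_simp
        linear_combination this
      exact this.symm
  rw [hr0] at hr hrev
  simp at hr hrev
  have hx1 : x 1 ≠ 0 ∨ x 2 ≠ 0 := by
    by_contra hcon
    push Not at hcon
    apply two_span' x hs (x 0) (x 3)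
    intro i
    rw [Submodule.mem_span_pair]
    fin_cases i
    · exact ⟨1, 0, by simp⟩
    · exact ⟨0, 0, by simp [hcon.1]⟩
    · exact ⟨0, 0, by simp [hcon.2]⟩
    · exact ⟨0, 1, by simp⟩
  have h1 : r 1 ≠ 0 := by
    intro h
    rw [h] at hr hrev
    simp at hr hrev
    have hr2 : r 2 ≠ 0 := by
      intro h2
      fin_cases i0
      · exact hi0 hr0
      · exact hi0 h
      · exact hi0 h2
    rcases hx1 with h3 | h3
    · rcases hrev with h4 | h4
      · exact hr2 h4
      · exact h3 h4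
    · rcases hr with h4 | h4
      · exact hr2 h4
      · exact h3 h4
  have h2 : r 2 ≠ 0 := by
    intro h
    rw [h] at hr hrev
    simp at hr hrev
    rcases hx1 with h3 | h3
    · rcases hr with h4 | h4
      · exact h1 h4
      · exact h3 h4
    · rcases hrev with h4 | h4
      · exact h1 h4
      · exact h3 h4
  set ω : ℂ := -(r 1 / r 2) with hω
  have hx2 : x 2 = ω • x 1 := by
    funext k
    have := congrFun hr k
    simp at this ⊢
    rw [hω]
    field_simp
    linear_combination this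
  have hx1' : x 1 = conj ω • x 2 := by
    funext k
    have := congrFun hrev k
    have c2 : conj (r 2) ≠ 0 := by simpa using h2
    simp at this ⊢
    rw [hω]
    simp
    field_simp
    linear_combination this
  have hx10 : x 1 ≠ 0 := by
    rcases hx1 with h3 | h3
    · exact h3
    · intro h4
      apply h3
      rw [hx2, h4, smul_zero]
  have hωω : conj ω * ω = 1 := by
    have h3 : x 1 = (conj ω * ω) • x 1 := by
      conv_lhs => rw [hx1', hx2]
      rw [smul_smul]
    by_contra h4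
    apply hx10
    have h5 : (1 - conj ω * ω) • x 1 = 0 := by
      rw [sub_smul, one_smul, ← h3, sub_self]
    rcases smul_eq_zero.mp h5 with h6 | h6
    · exfalso; apply h4; linear_combination -h6
    · exact h6
  have hω0 : ω ≠ 0 := by
    intro h; rw [h] at hωω; simp at hωω
  -- values
  have v11 : B (x 1) (x 1) = t 0 := T 1 1 0 (by norm_num)
  have v10 : B (x 1) (x 0) = ω * t 0 := by
    have e1 : B (x 1) (x 0) = B (x 2) (x 1) := by rw [T 1 0 1 (by norm_num), T 2 1 1 (by norm_num)]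
    rw [e1, hx2, map_smul, LinearMap.smul_apply, v11, smul_eq_mul]
  have v01 : B (x 0) (x 1) = conj ω * t 0 := by
    have e1 : B (x 0) (x 1) = B (x 1) (x 2) := by
      rw [T 0 1 (-1) (by norm_num), T 1 2 (-1) (by norm_num)]
    rw [e1, hx2, LinearMap.map_smulₛₗ, v11, smul_eq_mul]
  have v00 : B (x 0) (x 0) = t 0 := T 0 0 0 (by norm_num)
  have v33 : B (x 3) (x 3) = t 0 := T 3 3 0 (by norm_num)
  have v31 : B (x 3) (x 1) = ω ^ 2 * t 0 := by
    have e1 : B (x 3) (x 1) = B (x 2) (x 0) := by rw [T 3 1 2 (by norm_num), T 2 0 2 (by norm_num)]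
    rw [e1, hx2, map_smul, LinearMap.smul_apply, v10, smul_eq_mul]; ring
  have v13 : B (x 1) (x 3) = conj ω ^ 2 * t 0 := by
    have e1 : B (x 1) (x 3) = B (x 0) (x 2) := by
      rw [T 1 3 (-2) (by norm_num), T 0 2 (-2) (by norm_num)]
    rw [e1, hx2, LinearMap.map_smulₛₗ, v01, smul_eq_mul]; ring
  set y0 : Fin 3 → ℂ := x 0 - conj ω • x 1 with hy0
  set y3 : Fin 3 → ℂ := x 3 - ω ^ 2 • x 1 with hy3
  have w01 : B y0 (x 1) = 0 := by
    rw [hy0]; simp [v01, v11]
  have w10 : B (x 1) y0 = 0 := by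
    rw [hy0]; simp [v10, v11]
  have w31 : B y3 (x 1) = 0 := by
    rw [hy3]; simp [v31, v11]
  have w13 : B (x 1) y3 = 0 := by
    rw [hy3]; simp [v13, v11]
  have w00 : B y0 y0 = 0 := by
    have : B y0 y0 = B y0 (x 0) - ω * B y0 (x 1) := by
      conv_lhs => rw [hy0]
      rw [map_sub (B (x 0 - conj ω • x 1)), LinearMap.map_smulₛₗ (B (x 0 - conj ω • x 1))]
      simp [hy0]
    rw [this, w01, hy0]
    simp only [map_sub, map_smul, LinearMap.sub_apply, LinearMap.smul_apply, smul_eq_mul, v00, v10]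
    linear_combination (-(t 0)) * hωω
  have w33 : B y3 y3 = 0 := by
    have : B y3 y3 = B y3 (x 3) - conj ω ^ 2 * B y3 (x 1) := by
      conv_lhs => rw [hy3]
      rw [map_sub (B (x 3 - ω ^ 2 • x 1)), LinearMap.map_smulₛₗ (B (x 3 - ω ^ 2 • x 1))]
      simp [hy3]
    rw [this, w31, hy3]
    simp only [map_sub, map_smul, LinearMap.sub_apply, LinearMap.smul_apply, smul_eq_mul, v33, v13]
    linear_combination (-(t 0)) * (1 + conj ω * ω) * hωω
  -- spanning by x 1, y0, y3
  have hspan : ∀ y : Fin 3 → ℂ, ∃ p q s : ℂ, y = p • x 1 + q • y0 + s • y3 := by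
    intro y
    have := hs y
    induction this using Submodule.span_induction with
    | mem z hz =>
      obtain ⟨j, rfl⟩ := hz
      fin_cases j
      · exact ⟨conj ω, 1, 0, by simp [hy0]⟩
      · exact ⟨1, 0, 0, by simp⟩
      · exact ⟨ω, 0, 0, by simp [hx2]⟩
      · exact ⟨ω ^ 2, 0, 1, by simp [hy3]⟩
    | zero => exact ⟨0, 0, 0, by simp⟩
    | add a b _ _ ha hb =>
      obtain ⟨p, q, s, rfl⟩ := ha
      obtain ⟨p', q', s', rfl⟩ := hb
      exact ⟨p + p', q + q', s + s', by module⟩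
    | smul c a _ ha =>
      obtain ⟨p, q, s, rfl⟩ := ha
      exact ⟨c * p, c * q, c * s, by module⟩
  have hBl : ∀ (u : Fin 3 → ℂ), B u (x 1) = 0 → B u y0 = 0 → B u y3 = 0 → ∀ y, B u y = 0 := by
    intro u h3 h4 h5 y
    obtain ⟨p, q, s, rfl⟩ := hspan y
    simp [h3, h4, h5]
  have hBr : ∀ (u : Fin 3 → ℂ), B (x 1) u = 0 → B y0 u = 0 → B y3 u = 0 → ∀ y, B y u = 0 := by
    intro u h3 h4 h5 y
    obtain ⟨p, q, s, rfl⟩ := hspan y
    simp [h3, h4, h5]
  have ht0 : t 0 ≠ 0 := by
    intro h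
    rw [h] at v11
    obtain ⟨b0, b1⟩ := right_ker _ (hBl (x 1) v11 w10 w13)
    obtain ⟨_, b2⟩ := left_ker _ (hBr (x 1) v11 w01 w31)
    apply hx10
    funext i
    fin_cases i
    · simpa using b0
    · simpa using b1
    · simpa using b2
  obtain ⟨p, q, s, he2⟩ := hspan ![0, 0, 1]
  obtain ⟨p', q', s', he0⟩ := hspan ![1, 0, 0]
  set α := B y0 y3 with hα
  set β := B y3 y0 with hβ
  have g1 : ∀ y, B ![0, 0, 1] y = 0 := by intro y; simp [B_apply]
  have g2 : ∀ y, B y ![1, 0, 0] = 0 := by intro y; simp [B_apply]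
  have k1 : p * t 0 = 0 := by
    have := g1 (x 1); rw [he2] at this
    simpa [v11, w01, w31] using this
  have k2 : s * β = 0 := by
    have := g1 y0; rw [he2] at this
    simpa [w10, w00, hβ] using this
  have k3 : q * α = 0 := by
    have := g1 y3; rw [he2] at this
    simpa [w13, w33, hα] using this
  have k4 : conj p' * t 0 = 0 := by
    have := g2 (x 1); rw [he0] at this
    simpa [v11, w10, w13] using this
  have k5 : conj s' * α = 0 := by
    have := g2 y0; rw [he0] at this
    simpa [w01, w00, hα] using this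
  have k6 : conj q' * β = 0 := by
    have := g2 y3; rw [he0] at this
    simpa [w31, w33, hβ] using this
  have hp : p = 0 := by
    rcases mul_eq_zero.mp k1 with h | h
    · exact h
    · exact absurd h ht0
  have hp' : p' = 0 := by
    rcases mul_eq_zero.mp k4 with h | h
    · simpa using h
    · exact absurd h ht0
  have k7 : q' * (conj s * α) + s' * (conj q * β) = 0 := by
    have : B ![1, 0, 0] ![0, 0, 1] = 0 := by simp [B_apply]
    rw [he0, he2, hp, hp'] at this
    simp only [zero_smul, zero_add, map_add, LinearMap.add_apply, map_smul, LinearMap.smul_apply,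
      LinearMap.map_smulₛₗ, smul_eq_mul, w00, w33, ← hα, ← hβ] at this
    linear_combination this
  have hne2 : ¬ (q = 0 ∧ s = 0) := by
    rintro ⟨rfl, rfl⟩
    rw [hp] at he2
    have := congrFun he2 2
    simp at this
  have hne0 : ¬ (q' = 0 ∧ s' = 0) := by
    rintro ⟨rfl, rfl⟩
    rw [hp'] at he0
    have := congrFun he0 0
    simp at this
  by_cases hα0 : α = 0
  · by_cases hβ0 : β = 0
    · -- y0 and y3 are both in the right kernel
      have c0 := right_ker _ (hBl y0 w01 w00 (by rw [← hα, hα0]))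
      have c3 := right_ker _ (hBl y3 w31 (by rw [← hβ, hβ0]) w33)
      apply two_span (x 1) ![0, 0, 1]
      intro v
      obtain ⟨a, b, c, rfl⟩ := hspan v
      rw [Submodule.mem_span_pair]
      refine ⟨a, b * y0 2 + c * y3 2, ?_⟩
      funext i
      fin_cases i
      · simp [c0.1, c3.1]
      · simp [c0.2, c3.2]
      · simp; ring
    · have hs0 : s = 0 := by
        rcases mul_eq_zero.mp k2 with h | h
        · exact h
        · exact absurd h hβ0
      have hq' : q' = 0 := by
        rcases mul_eq_zero.mp k6 with h | h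
        · simpa using h
        · exact absurd h hβ0
      rw [hq', hs0] at k7
      simp [hβ0] at k7
      rcases k7 with h | h
      · exact hne0 ⟨hq', h⟩
      · exact hne2 ⟨h, hs0⟩
  · have hq0 : q = 0 := by
      rcases mul_eq_zero.mp k3 with h | h
      · exact h
      · exact absurd h hα0
    have hs' : s' = 0 := by
      rcases mul_eq_zero.mp k5 with h | h
      · simpa using h
      · exact absurd h hα0
    rw [hq0, hs'] at k7
    simp [hα0] at k7
    rcases k7 with h | h
    · exact hne0 ⟨h, hs'⟩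
    · exact hne2 ⟨hq0, h⟩

/-! ### the Jordan block is (equivalent to) a truncated Toeplitz operator -/

theorem isInner_e3 : IsInner (e 3) := by
  refine ⟨e_mem 3 (by norm_num), ?_, ?_⟩
  · filter_upwards [e_ae 3] with t ht
    rw [ht, fourier_norm']
  · rintro ⟨c, hc⟩
    have h1 : e 3 = c • e 0 := by
      apply Lp.ext
      filter_upwards [hc, Lp.coeFn_smul c (e 0), e_ae 0] with t h1 h2 h3
      rw [h1, h2]; simp [h3]
    have h2 : inner ℂ (e 3) (e 3) = (1 : ℂ) := by rw [e_inner]; simp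
    have h3 : inner ℂ (e 3) (c • e 0) = (0 : ℂ) := by
      rw [inner_smul_right, e_inner]; simp
    rw [← h1, h2] at h3
    exact one_ne_zero h3

theorem mem_K3 (f : L2) : f ∈ modelSpace (e 3) ↔
    (∀ n : ℤ, n < 0 → inner ℂ (e n) f = 0) ∧ (∀ n : ℤ, 3 ≤ n → inner ℂ (e n) f = 0) := by
  rw [mem_model isInner_e3]
  refine and_congr_right (fun _ => ⟨fun h n hn => ?_, fun h n hn => ?_⟩)
  · have := h (n - 3) (by omega)
    rw [sh_e] at this
    simpa using this
  · rw [sh_e]
    exact h _ (by omega)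

noncomputable def v3 (i : Fin 3) : modelSpace (e 3) :=
  ⟨e (i : ℤ), by
    rw [mem_K3]
    have := i.2
    constructor
    · intro n hn
      rw [e_inner, if_neg (by omega)]
    · intro n hn
      rw [e_inner, if_neg (by omega)]⟩

theorem v3_orth : Orthonormal ℂ v3 := by
  rw [orthonormal_iff_ite]
  intro i j
  change inner ℂ (e (i : ℤ)) (e (j : ℤ)) = _
  rw [e_inner]
  simp [Fin.ext_iff]

theorem v3_span : ⊤ ≤ Submodule.span ℂ (Set.range v3) := by
  intro f _
  have h : f = ∑ i : Fin 3, (inner ℂ (e (i : ℤ)) (f : L2) : ℂ) • v3 i := by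
    apply Subtype.ext
    rw [← sub_eq_zero]
    apply ext_e
    intro n
    rw [Fin.sum_univ_three]
    simp only [Submodule.coe_add, Submodule.coe_smul, v3, inner_sub_right, inner_add_right,
      inner_smul_right, e_inner]
    have hf := (mem_K3 _).mp f.2
    by_cases h1 : n < 0
    · rw [hf.1 n h1, if_neg (by simp; omega), if_neg (by simp; omega), if_neg (by simp; omega)]
      simp
    by_cases h2 : 3 ≤ n
    · rw [hf.2 n h2, if_neg (by simp; omega), if_neg (by simp; omega), if_neg (by simp; omega)]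
      simp
    have h3 : n = 0 ∨ n = 1 ∨ n = 2 := by omega
    rcases h3 with rfl | rfl | rfl <;> simp
  rw [h]
  apply Submodule.sum_mem
  intro i _
  exact Submodule.smul_mem _ _ (Submodule.subset_span ⟨i, rfl⟩)

noncomputable def b3 : OrthonormalBasis (Fin 3) ℂ (modelSpace (e 3)) :=
  OrthonormalBasis.mk v3_orth v3_span

noncomputable def U3 : EuclideanSpace ℂ (Fin 3) ≃ₗᵢ[ℂ] modelSpace (e 3) := b3.repr.symm

theorem U3_apply (x : EuclideanSpace ℂ (Fin 3)) :
    (U3 x : L2) = x 0 • e 0 + x 1 • e 1 + x 2 • e 2 := by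
  have h : U3 x = ∑ i, x i • b3 i := (b3.sum_repr_symm x).symm
  rw [h, Fin.sum_univ_three]
  simp only [b3, OrthonormalBasis.coe_mk, Submodule.coe_add, Submodule.coe_smul, v3]
  simp

theorem J_apply (x : EuclideanSpace ℂ (Fin 3)) : J x = WithLp.toLp 2 ![0, x 0, x 1] := rfl

theorem uetto_J : UETTO J := by
  refine ⟨e 3, isInner_e3, (U3.toContinuousLinearEquiv : _ →L[ℂ] _) ∘L J ∘L
    (U3.symm.toContinuousLinearEquiv : _ →L[ℂ] _), ⟨e 1, ?_⟩, U3, ?_⟩
  · rintro f _ w hw g
    have hw' : w = sh 1 (f : L2) := by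
      apply Lp.ext
      filter_upwards [hw, sh_ae 1 (f : L2), e_ae 1] with t h1 h2 h3
      rw [h1, h2, h3]
    obtain ⟨x, rfl⟩ := U3.surjective f
    have h1 : ((U3.toContinuousLinearEquiv : _ →L[ℂ] _) ∘L J ∘L
        (U3.symm.toContinuousLinearEquiv : _ →L[ℂ] _)) (U3 x) = U3 (J x) := by
      simp
    rw [h1, hw', U3_apply, U3_apply, J_apply, sh_adj]
    have hg : inner ℂ (g : L2) (e 3) = (0 : ℂ) := by
      rw [← inner_conj_symm, ((mem_K3 _).mp g.2).2 3 le_rfl, map_zero]
    have h2 : ∀ n : ℤ, inner ℂ (sh (-1) (g : L2)) (e n) = inner ℂ (g : L2) (e (n + 1)) := by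
      intro n
      rw [← sh_adj, sh_e]
    simp only [inner_add_right, inner_smul_right, h2]
    norm_num
    rw [hg]; simp
  · intro x
    simp

/-! ### the sum with zero is not -/

theorem not_uetto : ¬ UETTO (plusZero J) := by
  rintro ⟨Θ, hΘ, A, ⟨φ, hφ⟩, U, hU⟩
  have hfd : FiniteDimensional ℂ (modelSpace Θ) := by
    have : FiniteDimensional ℂ (WithLp 2 (EuclideanSpace ℂ (Fin 3) × ℂ)) := inferInstance
    exact Module.Finite.equiv U.toLinearEquiv
  have hfr : Module.finrank ℂ (modelSpace Θ) = 4 := by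
    rw [← U.toLinearEquiv.finrank_eq, (WithLp.linearEquiv 2 ℂ _).finrank_eq]
    simp
  -- a function `v` in the model space with `z v, z² v, z³ v` in it too
  let L : modelSpace Θ →ₗ[ℂ] (Fin 3 → ℂ) :=
    LinearMap.pi (fun i => ((innerSL ℂ (sh (-((i : ℤ) + 1)) Θ)).toLinearMap ∘ₗ
      (modelSpace Θ).subtype))
  have hker : LinearMap.ker L ≠ ⊥ := LinearMap.ker_ne_bot_of_finrank_lt (by rw [hfr]; simp)
  obtain ⟨⟨v, hvK⟩, hv1, hv2⟩ := Submodule.exists_mem_ne_zero_of_ne_bot hker
  have hv0 : v ≠ 0 := fun h => hv2 (Subtype.ext h)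
  have hL : ∀ i : Fin 3, inner ℂ (sh (-((i : ℤ) + 1)) Θ) v = 0 := by
    intro i
    have := congrFun (LinearMap.mem_ker.mp hv1) i
    simpa [L] using this
  obtain ⟨hvn, hvp⟩ := (mem_model hΘ v).mp hvK
  have hvΘ : ∀ n : ℤ, -3 ≤ n → inner ℂ (sh n Θ) v = 0 := by
    intro n hn
    by_cases h0 : 0 ≤ n
    · exact hvp n h0
    have h3 : n = -1 ∨ n = -2 ∨ n = -3 := by omega
    rcases h3 with rfl | rfl | rfl
    · have := hL 0; simpa using this
    · have := hL 1; simpa using this
    · have := hL 2; simpa using this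
  have hmem : ∀ i : Fin 4, sh (i : ℤ) v ∈ modelSpace Θ := by
    intro i
    have hi := i.2
    rw [mem_model hΘ]
    constructor
    · intro n hn
      rw [sh_adj, sh_e]
      exact hvn _ (by omega)
    · intro n hn
      rw [sh_adj, sh_sh]
      exact hvΘ _ (by omega)
  let vi : Fin 4 → modelSpace Θ := fun i => ⟨sh (i : ℤ) v, hmem i⟩
  have hex : ∃ m : ℕ, inner ℂ (e (m : ℤ)) v ≠ 0 := by
    by_contra hcon
    push Not at hcon
    apply hv0
    apply ext_e
    intro n
    by_cases hn : n < 0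
    · exact hvn n hn
    · obtain ⟨m, rfl⟩ := Int.eq_ofNat_of_zero_le (not_lt.mp hn)
      exact hcon m
  classical
  set n0 := Nat.find hex with hn0
  have ha : inner ℂ (e (n0 : ℤ)) v ≠ 0 := Nat.find_spec hex
  have hlt : ∀ m : ℤ, m < n0 → inner ℂ (e m) v = 0 := by
    intro m hm
    by_cases hn : m < 0
    · exact hvn m hn
    · obtain ⟨m, rfl⟩ := Int.eq_ofNat_of_zero_le (not_lt.mp hn)
      have := Nat.find_min hex (m := m) (by exact_mod_cast hm)
      simpa using this
  have hli : LinearIndependent ℂ vi := by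
    rw [Fintype.linearIndependent_iff]
    intro c hc
    have key : ∀ m : ℤ, c 0 * inner ℂ (e m) v + c 1 * inner ℂ (e (m - 1)) v
        + c 2 * inner ℂ (e (m - 2)) v + c 3 * inner ℂ (e (m - 3)) v = 0 := by
      intro m
      have h1 := congrArg (fun f : modelSpace Θ => inner ℂ (e m) (f : L2)) hc
      rw [Fin.sum_univ_four] at h1
      simp only [Submodule.coe_add, Submodule.coe_smul, vi, inner_add_right, inner_smul_right,
        sh_adj, sh_e, Submodule.coe_zero, inner_zero_right] at h1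
      have e0 : (((0 : Fin 4) : ℕ) : ℤ) = 0 := rfl
      have e1 : (((1 : Fin 4) : ℕ) : ℤ) = 1 := rfl
      have e2 : (((2 : Fin 4) : ℕ) : ℤ) = 2 := rfl
      have e3 : (((3 : Fin 4) : ℕ) : ℤ) = 3 := rfl
      rw [e0, e1, e2, e3] at h1
      simpa [sub_eq_add_neg] using h1
    have k0 := key n0
    rw [hlt (n0 - 1) (by omega), hlt (n0 - 2) (by omega), hlt (n0 - 3) (by omega)] at k0
    have c0 : c 0 = 0 := by
      have : c 0 * inner ℂ (e (n0 : ℤ)) v = 0 := by linear_combination k0
      exact (mul_eq_zero.mp this).resolve_right ha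
    have k1 := key (n0 + 1)
    rw [c0, hlt (n0 + 1 - 2) (by omega), hlt (n0 + 1 - 3) (by omega)] at k1
    have c1 : c 1 = 0 := by
      have : c 1 * inner ℂ (e (n0 : ℤ)) v = 0 := by
        have h2 : (n0 : ℤ) + 1 - 1 = n0 := by ring
        rw [h2] at k1
        linear_combination k1
      exact (mul_eq_zero.mp this).resolve_right ha
    have k2 := key (n0 + 2)
    rw [c0, c1, hlt (n0 + 2 - 3) (by omega)] at k2
    have c2 : c 2 = 0 := by
      have : c 2 * inner ℂ (e (n0 : ℤ)) v = 0 := by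
        have h2 : (n0 : ℤ) + 2 - 2 = n0 := by ring
        rw [h2] at k2
        linear_combination k2
      exact (mul_eq_zero.mp this).resolve_right ha
    have k3 := key (n0 + 3)
    rw [c0, c1, c2] at k3
    have c3 : c 3 = 0 := by
      have : c 3 * inner ℂ (e (n0 : ℤ)) v = 0 := by
        have h2 : (n0 : ℤ) + 3 - 3 = n0 := by ring
        rw [h2] at k3
        linear_combination k3
      exact (mul_eq_zero.mp this).resolve_right ha
    intro i
    fin_cases i
    · exact c0
    · exact c1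
    · exact c2
    · exact c3
  have hspan : Submodule.span ℂ (Set.range vi) = ⊤ :=
    hli.span_eq_top_of_card_eq_finrank (by rw [hfr]; simp)
  let wv : Fin 4 → WithLp 2 (EuclideanSpace ℂ (Fin 3) × ℂ) := fun i => U.symm (vi i)
  have hUw : ∀ i, U (wv i) = vi i := fun i => U.apply_symm_apply _
  let x : Fin 4 → Fin 3 → ℂ := fun i k => (wv i).fst k
  let t : ℤ → ℂ := fun k => ∫ s, fourier k s * (φ s * v s * conj (v s)) ∂haarAddCircle
  apply no_toeplitz x t
  · intro i j
    -- both sides equal ⟨A v_i, v_j⟩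
    have hb : (vi i : L2) ∈ bddSub := model_bdd hΘ _ (vi i).2
    obtain ⟨C, hC⟩ := hb
    have hm : MemLp (fun s => (vi i : L2) s * φ s) 2 haarAddCircle :=
      memLp_mul (Lp.memLp (vi i : L2)).1 hC φ
    have hw := hm.coeFn_toLp
    have h1 := hφ (vi i) ⟨C, hC⟩ (hm.toLp _) (by
      filter_upwards [hw] with s hs
      rw [hs]; ring) (vi j)
    have h2 : inner ℂ ((vi j : modelSpace Θ) : L2) (hm.toLp _) = t ((i : ℤ) - (j : ℤ)) := by
      rw [inner_eq' (sh_ae (j : ℤ) v) hw]
      apply integral_congr_ae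
      filter_upwards [sh_ae (i : ℤ) v] with s hs
      have h3 : (vi i : L2) s = fourier (i : ℤ) s * v s := hs
      rw [h3, sub_eq_add_neg, fourier_add, fourier_neg, map_mul]
      ring
    rw [← h2, ← h1]
    have h3 : inner ℂ ((vi j : modelSpace Θ) : L2) (A (vi i) : L2)
        = inner ℂ (wv j) (plusZero J (wv i)) := by
      rw [← U.inner_map_map, hUw j, hU, hUw i]
      rfl
    rw [h3, WithLp.prod_inner_apply]
    have h4 : (plusZero J (wv i)).ofLp.1 = J (wv i).ofLp.1 := by simp [plusZero]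
    have h5 : (plusZero J (wv i)).ofLp.2 = 0 := by simp [plusZero]
    rw [h4, h5, J_apply, PiLp.inner_apply, Fin.sum_univ_three, B_apply]
    simp [x]
  · intro y
    let Y : WithLp 2 (EuclideanSpace ℂ (Fin 3) × ℂ) := WithLp.toLp 2 (WithLp.toLp 2 y, 0)
    have h1 : U Y ∈ Submodule.span ℂ (Set.range vi) := by rw [hspan]; trivial
    rw [Submodule.mem_span_range_iff_exists_fun] at h1 ⊢
    obtain ⟨c, hc⟩ := h1
    refine ⟨c, ?_⟩
    have h2 : ∑ i, c i • wv i = Y := by
      apply U.injective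
      rw [← hc, map_sum]
      apply Finset.sum_congr rfl
      intro i _
      rw [map_smul, hUw]
    funext k
    have h3 := congrArg (fun w : WithLp 2 (EuclideanSpace ℂ (Fin 3) × ℂ) => w.fst k) h2
    simp only [Fin.sum_univ_four] at h3 ⊢
    simpa [x, Y] using h3


end Dev

/-! ### transfer -/

theorem isInner_iff (Θ : L2) : IsInner Θ ↔ Dev.IsInner Θ := by
  constructor
  · rintro ⟨h1, h2, h3⟩
    refine ⟨h1, h2, ?_⟩
    rintro ⟨c, hc⟩
    apply h3 c
    have : (Θ : Dev.L2) = c • Dev.e 0 := by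
      apply Lp.ext
      filter_upwards [hc, Lp.coeFn_smul c (Dev.e 0), Dev.e_ae 0] with t h1 h2 h3
      rw [h1, h2]; simp [h3]
    exact this
  · rintro ⟨h1, h2, h3⟩
    refine ⟨h1, h2, ?_⟩
    intro c hc
    apply h3
    refine ⟨c, ?_⟩
    have hc' : (Θ : Dev.L2) = c • Dev.e 0 := hc
    filter_upwards [Lp.coeFn_smul c (Dev.e 0), Dev.e_ae 0] with t h2 h3
    rw [hc', h2]; simp [h3]

theorem uetto_of_dev {H : Type} [NormedAddCommGroup H] [InnerProductSpace ℂ H] (T : H →L[ℂ] H)
    (h : Dev.UETTO T) : UETTO T := by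
  obtain ⟨Θ, hΘ, A, ⟨φ, hφ⟩, U, hU⟩ := h
  let U' : H →ₗᵢ[ℂ] Dev.L2 := (Dev.modelSpace Θ).subtypeₗᵢ.comp U.toLinearIsometry
  refine ⟨Θ, φ, (isInner_iff Θ).mpr hΘ, U', ?_, ?_⟩
  · intro f
    constructor
    · intro hf
      exact ⟨U.symm ⟨f, hf⟩, by
        change ((U (U.symm ⟨f, hf⟩) : Dev.modelSpace Θ) : Dev.L2) = f
        rw [U.apply_symm_apply]⟩
    · rintro ⟨x, rfl⟩
      exact (U x).2
  · intro x w hx hw
    refine ⟨(U (T x)).2, ?_⟩
    intro g hg
    have h1 := hφ (U x) hx w hw ⟨g, hg⟩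
    rw [← hU] at h1
    let w' : Dev.L2 := w
    let g' : Dev.L2 := g
    change inner ℂ g' (w' - (U (T x)).1) = 0
    rw [inner_sub_right]
    exact sub_eq_zero.mpr h1.symm

theorem dev_of_uetto {H : Type} [NormedAddCommGroup H] [InnerProductSpace ℂ H] (T : H →L[ℂ] H)
    (h : UETTO T) : Dev.UETTO T := by
  obtain ⟨Θ, φ, hΘ, U, hr, hU⟩ := h
  let U1 : H →ₗᵢ[ℂ] Dev.L2 := U
  have hr1 : ∀ x, U1 x ∈ Dev.modelSpace Θ := fun x => (hr (U x)).mpr ⟨x, rfl⟩
  let U2 : H →ₗᵢ[ℂ] Dev.modelSpace Θ :=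
    { toLinearMap := U1.toLinearMap.codRestrict (Dev.modelSpace Θ) hr1
      norm_map' := fun x => U1.norm_map x }
  have hsurj : Function.Surjective U2 := by
    intro f
    obtain ⟨x, hx⟩ := (hr f.1).mp f.2
    exact ⟨x, Subtype.ext hx⟩
  let U3 : H ≃ₗᵢ[ℂ] Dev.modelSpace Θ := LinearIsometryEquiv.ofSurjective U2 hsurj
  refine ⟨Θ, (isInner_iff Θ).mp hΘ, (U3.toContinuousLinearEquiv : _ →L[ℂ] _) ∘L T ∘L
    (U3.symm.toContinuousLinearEquiv : _ →L[ℂ] _), ⟨φ, ?_⟩, U3, ?_⟩
  · intro f hf w hw g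
    obtain ⟨x, rfl⟩ := U3.surjective f
    have h1 : ((U3.toContinuousLinearEquiv : _ →L[ℂ] _) ∘L T ∘L
        (U3.symm.toContinuousLinearEquiv : _ →L[ℂ] _)) (U3 x) = U3 (T x) := by
      simp
    rw [h1]
    have h2 := (hU x w hf hw).2 g.1 g.2
    let w' : Dev.L2 := w
    have h3 : inner ℂ g.1 (w' - (U3 (T x)).1) = 0 := h2
    rw [inner_sub_right] at h3
    exact (sub_eq_zero.mp h3).symm
  · intro x
    simp

/-- There is an operator `T` on a three-dimensional space (the `3 × 3` nilpotent Jordan block)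
which is unitarily equivalent to a truncated Toeplitz operator, while `T ⊕ 0` is not. -/
theorem result : ∃ T : EuclideanSpace ℂ (Fin 3) →L[ℂ] EuclideanSpace ℂ (Fin 3),
    UETTO T ∧ ¬ UETTO (plusZero T) :=
  ⟨J, uetto_of_dev _ Dev.uetto_J, fun h => Dev.not_uetto (dev_of_uetto _ h)⟩

end Pool.Agent.Results.MP_3d2409_an.PlusZero
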